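import Mathlib
import Pool.Agent.H572Z.Ex.Neg
import Pool.Agent.H552Z.PosMain

set_option autoImplicit false

open MeasureTheory Set Pool.Agent.H572Z.Sp Pool.Agent.H572Z.Ex
open scoped ENNReal NNReal

/-- **Q2, full answer.** The strong-type bound by the sum of the two mixed constants with
`θ = 1 / (p - α)` and `η = 1 / (p' - α)` holds for every `0 < α < 1`, every dimension, every
`p > 1` and every Calderon-Zygmund operator, and it fails for `α = 0`: there is a
Calderon-Zygmund operator on the line for which, for every `p > 1`, no constant works. -/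
theorem Pool.Agent.Results.MP_4229e6_an.AQ2Strong.result :
    (∀ (d : ℕ), 1 ≤ d → ∀ (p α : ℝ), 1 < p → 0 < α → α < 1 →
      ∀ (T : (E d → ℂ) → E d → ℂ), IsCZO T →
      ∃ C : ℝ≥0, ∀ w : E d → ℝ, InAp p w →
        opStrong T p w ≤ C * (mixed p (1 / (p - α)) w +
          mixed (conj p) (1 / (conj p - α)) (dual p w))) ∧
    (∃ T : (E 1 → ℂ) → E 1 → ℂ, IsCZO T ∧ ∀ p : ℝ, 1 < p → ∀ C : ℝ≥0,
      ∃ w : E 1 → ℝ, InAp p w ∧
        C * (mixed p (1 / p) w + mixed (conj p) (1 / conj p) (dual p w)) < opStrong T p w) := by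
  refine ⟨fun d hd p α hp h0 h1 T hT => ?_, ?_⟩
  · obtain ⟨C, hC⟩ := Pool.Agent.H552Z.Pos.pos_part d hd p α hp h0 h1 T hT
    exact ⟨C, fun w hw => (hC w hw).2⟩
  · obtain ⟨T, hT, h⟩ := neg_part
    refine ⟨T, hT, fun p hp C => ?_⟩
    obtain ⟨w, h1, _, h3⟩ := h p hp C
    exact ⟨w, h1, h3⟩
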